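import Pool.Agent.W2helper56.CM.Red

/-!
# From matchings to exact covers
-/

set_option autoImplicit false

namespace Pool.Agent.W2helper56.CM

open Pool.Agent.NPC Pool.Agent.NPC.H632

section

variable {S : List Tr} {N : ℕ} {M₁ M₂ : Set (W × W)}

structure Good (S : List Tr) (N : ℕ) (M₁ M₂ : Set (W × W)) : Prop where
  h1 : IsPM (gr S N) M₁
  h2 : IsPM (gr S N) M₂
  hd : Disjoint M₁ M₂
  hc : ∀ e ∈ M₁, (e, true) ∈ edges S N

namespace Good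

variable (H : Good S N M₁ M₂)

include H

theorem not_both {e : W × W} (h1 : e ∈ M₁) (h2 : e ∈ M₂) : False :=
  Set.disjoint_left.1 H.hd h1 h2

theorem ex1 {k i : ℕ} {t : Tr} (ht : t ∈ S) (hi : i < 3) (hk : k = 2 ∨ k = 3 ∨ k = 4 ∨ k = 5) :
    ∃ v, (vx k i t, v) ∈ M₁ := by
  refine (H.h1.left (vx k i t) ?_).exists
  refine mem_verts.2 (Or.inr ⟨t, ht, i, hi, ?_⟩)
  rcases hk with rfl | rfl | rfl | rfl <;> simp

theorem ex2 {k i : ℕ} {t : Tr} (ht : t ∈ S) (hi : i < 3) (hk : k = 2 ∨ k = 3 ∨ k = 4 ∨ k = 5) :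
    ∃ v, (vx k i t, v) ∈ M₂ := by
  refine (H.h2.left (vx k i t) ?_).exists
  refine mem_verts.2 (Or.inr ⟨t, ht, i, hi, ?_⟩)
  rcases hk with rfl | rfl | rfl | rfl <;> simp

theorem ex1' {k i : ℕ} {t : Tr} (ht : t ∈ S) (hi : i < 3) (hk : k = 2 ∨ k = 3 ∨ k = 4 ∨ k = 5) :
    ∃ u, (u, vx k i t) ∈ M₁ := by
  refine (H.h1.right (vx k i t) ?_).exists
  refine mem_verts.2 (Or.inr ⟨t, ht, i, hi, ?_⟩)
  rcases hk with rfl | rfl | rfl | rfl <;> simp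

theorem ex2' {k i : ℕ} {t : Tr} (ht : t ∈ S) (hi : i < 3) (hk : k = 2 ∨ k = 3 ∨ k = 4 ∨ k = 5) :
    ∃ u, (u, vx k i t) ∈ M₂ := by
  refine (H.h2.right (vx k i t) ?_).exists
  refine mem_verts.2 (Or.inr ⟨t, ht, i, hi, ?_⟩)
  rcases hk with rfl | rfl | rfl | rfl <;> simp

omit H in
theorem mem_vert {k i : ℕ} {t : Tr} (ht : t ∈ S) (hi : i < 3) (hk : k = 2 ∨ k = 3 ∨ k = 4 ∨ k = 5) :
    vx k i t ∈ verts S N := by
  refine mem_verts.2 (Or.inr ⟨t, ht, i, hi, ?_⟩)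
  rcases hk with rfl | rfl | rfl | rfl <;> simp

theorem e2 {e : W × W} (he : e ∈ M₂) : ∃ c, (e, c) ∈ edges S N := H.h2.edge e he

/-- uniqueness of partners -/
theorem uq1 {k i : ℕ} {t : Tr} (ht : t ∈ S) (hi : i < 3) (hk : k = 2 ∨ k = 3 ∨ k = 4 ∨ k = 5)
    {v w : W} (hv : (vx k i t, v) ∈ M₁) (hw : (vx k i t, w) ∈ M₁) : v = w :=
  (H.h1.left _ (mem_vert ht hi hk)).unique hv hw

theorem uq2 {k i : ℕ} {t : Tr} (ht : t ∈ S) (hi : i < 3) (hk : k = 2 ∨ k = 3 ∨ k = 4 ∨ k = 5)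
    {v w : W} (hv : (vx k i t, v) ∈ M₂) (hw : (vx k i t, w) ∈ M₂) : v = w :=
  (H.h2.left _ (mem_vert ht hi hk)).unique hv hw

theorem uq1' {k i : ℕ} {t : Tr} (ht : t ∈ S) (hi : i < 3) (hk : k = 2 ∨ k = 3 ∨ k = 4 ∨ k = 5)
    {v w : W} (hv : (v, vx k i t) ∈ M₁) (hw : (w, vx k i t) ∈ M₁) : v = w :=
  (H.h1.right _ (mem_vert ht hi hk)).unique hv hw

theorem uq2' {k i : ℕ} {t : Tr} (ht : t ∈ S) (hi : i < 3) (hk : k = 2 ∨ k = 3 ∨ k = 4 ∨ k = 5)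
    {v w : W} (hv : (v, vx k i t) ∈ M₂) (hw : (w, vx k i t) ∈ M₂) : v = w :=
  (H.h2.right _ (mem_vert ht hi hk)).unique hv hw

theorem b1 {i : ℕ} {t : Tr} (ht : t ∈ S) (hi : i < 3) : (vx 5 i t, vx 5 i t) ∈ M₁ := by
  obtain ⟨v, hv⟩ := H.ex1 ht hi (k := 5) (by simp)
  rcases adj_b (H.hc _ hv) with rfl | ⟨-, h⟩
  · exact hv
  · simp at h

theorem b2 {i : ℕ} {t : Tr} (ht : t ∈ S) (hi : i < 3) : (vx 5 i t, vx 4 i t) ∈ M₂ := by
  obtain ⟨v, hv⟩ := H.ex2 ht hi (k := 5) (by simp)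
  obtain ⟨c, hc⟩ := H.e2 hv
  rcases adj_b hc with rfl | ⟨rfl, -⟩
  · exact (H.not_both (H.b1 ht hi) hv).elim
  · exact hv

theorem a2 {i : ℕ} {t : Tr} (ht : t ∈ S) (hi : i < 3) : (vx 4 i t, vx 5 i t) ∈ M₂ := by
  obtain ⟨v, hv⟩ := H.ex2' ht hi (k := 5) (by simp)
  obtain ⟨c, hc⟩ := H.e2 hv
  rcases adj_a' hc with rfl | ⟨rfl, -⟩
  · exact (H.not_both (H.b1 ht hi) hv).elim
  · exact hv

theorem q1 {i : ℕ} {t : Tr} (ht : t ∈ S) (hi : i < 3) :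
    (vx 3 i t, vx 3 i t) ∈ M₁ ∨ (vx 3 i t, vx 2 i t) ∈ M₁ := by
  obtain ⟨v, hv⟩ := H.ex1 ht hi (k := 3) (by simp)
  rcases adj_q (H.hc _ hv) with rfl | rfl
  · exact Or.inl hv
  · exact Or.inr hv

/-- if `q` is matched to `Q` by `M₁` then `P` is matched to its element by `M₂` -/
theorem caseA {i : ℕ} {t : Tr} (ht : t ∈ S) (hi : i < 3) (h : (vx 3 i t, vx 2 i t) ∈ M₁) :
    (vx 2 i t, ex 0 (cmp i t)) ∈ M₂ := by
  have h1 : (vx 3 i t, vx 3 i t) ∈ M₂ := by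
    obtain ⟨v, hv⟩ := H.ex2 ht hi (k := 3) (by simp)
    obtain ⟨c, hc⟩ := H.e2 hv
    rcases adj_q hc with rfl | rfl
    · exact hv
    · exact (H.not_both h hv).elim
  have h2 : (vx 2 i t, vx 3 i t) ∈ M₁ := by
    obtain ⟨v, hv⟩ := H.ex1' ht hi (k := 3) (by simp)
    rcases adj_p' (H.hc _ hv) with rfl | rfl
    · exact hv
    · exact (H.not_both hv h1).elim
  obtain ⟨v, hv⟩ := H.ex2 ht hi (k := 2) (by simp)
  obtain ⟨c, hc⟩ := H.e2 hv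
  rcases adj_P hc with rfl | ⟨j, hj, -, rfl⟩ | ⟨rfl, -⟩
  · exact (H.not_both h2 hv).elim
  · have := H.uq2' ht hj (by simp) hv (H.b2 ht hj)
    simp [vx] at this
  · exact hv

theorem caseA_next {i : ℕ} {t : Tr} (ht : t ∈ S) (hi : i < 3) (h : (vx 3 i t, vx 2 i t) ∈ M₁) :
    (vx 3 (nx i) t, vx 2 (nx i) t) ∈ M₁ := by
  have h1 : (vx 4 i t, vx 4 i t) ∈ M₁ := by
    obtain ⟨v, hv⟩ := H.ex1 ht hi (k := 4) (by simp)
    rcases adj_z (H.hc _ hv) with rfl | rfl | ⟨-, h'⟩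
    · have := H.uq1' ht hi (by simp) hv h
      simp [vx] at this
    · exact hv
    · simp at h'
  have h2 : (vx 2 (nx i) t, vx 3 (nx i) t) ∈ M₁ := by
    obtain ⟨v, hv⟩ := H.ex1 ht (nx_lt i) (k := 2) (by simp)
    rcases adj_P (H.hc _ hv) with rfl | ⟨j, hj, hji, rfl⟩ | ⟨-, h'⟩
    · exact hv
    · obtain rfl := nx_inj hj hi hji
      have := H.uq1' ht hi (by simp) hv h1
      simp [vx] at this
    · simp at h'
  rcases H.q1 ht (nx_lt i) with h3 | h3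
  · have := H.uq1' ht (nx_lt i) (by simp) h3 h2
    simp [vx] at this
  · exact h3

theorem caseB {i : ℕ} {t : Tr} (ht : t ∈ S) (hi : i < 3) (h : (vx 3 i t, vx 3 i t) ∈ M₁) :
    (vx 2 i t, ex 0 (cmp i t)) ∉ M₂ := by
  have h1 : (vx 2 i t, vx 3 i t) ∈ M₂ := by
    obtain ⟨v, hv⟩ := H.ex2' ht hi (k := 3) (by simp)
    obtain ⟨c, hc⟩ := H.e2 hv
    rcases adj_p' hc with rfl | rfl
    · exact hv
    · exact (H.not_both h hv).elim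
  intro h'
  have := H.uq2 ht hi (by simp) h1 h'
  simp [vx, ex] at this

theorem all_iff {i : ℕ} {t : Tr} (ht : t ∈ S) (hi : i < 3) :
    (vx 2 i t, ex 0 (cmp i t)) ∈ M₂ ↔ (vx 3 0 t, vx 2 0 t) ∈ M₁ := by
  have h0 : (vx 3 0 t, vx 2 0 t) ∈ M₁ → (vx 3 1 t, vx 2 1 t) ∈ M₁ :=
    fun h => H.caseA_next ht (by norm_num) h
  have h1 : (vx 3 1 t, vx 2 1 t) ∈ M₁ → (vx 3 2 t, vx 2 2 t) ∈ M₁ :=
    fun h => H.caseA_next ht (by norm_num) h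
  have h2 : (vx 3 2 t, vx 2 2 t) ∈ M₁ → (vx 3 0 t, vx 2 0 t) ∈ M₁ :=
    fun h => H.caseA_next ht (by norm_num) h
  have h3 : (vx 2 i t, ex 0 (cmp i t)) ∈ M₂ ↔ (vx 3 i t, vx 2 i t) ∈ M₁ := by
    constructor
    · intro h
      rcases H.q1 ht hi with h' | h'
      · exact (H.caseB ht hi h' h).elim
      · exact h'
    · exact H.caseA ht hi
  rw [h3]
  interval_cases i
  · exact Iff.rfl
  · exact ⟨fun h => h2 (h1 h), h0⟩
  · exact ⟨h2, fun h => h1 (h0 h)⟩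

theorem cover {x : ℕ} (hx : x < N) :
    ∃ t ∈ S, ∃ i < 3, cmp i t = x ∧ (vx 3 0 t, vx 2 0 t) ∈ M₁ := by
  have hu : ex 1 x ∈ verts S N := mem_verts.2 (Or.inl ⟨x, hx, Or.inr rfl⟩)
  have hv : ex 0 x ∈ verts S N := mem_verts.2 (Or.inl ⟨x, hx, Or.inl rfl⟩)
  have h1 : (ex 1 x, ex 0 x) ∈ M₁ := by
    obtain ⟨v, hv⟩ := (H.h1.left _ hu).exists
    rcases adj_eb (H.hc _ hv) with rfl | ⟨-, h'⟩
    · exact hv
    · simp at h'
  obtain ⟨u, hu⟩ := (H.h2.right _ hv).exists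
  obtain ⟨c, hc⟩ := H.e2 hu
  rcases adj_ev' hc with rfl | ⟨t, ht, i, hi, hcx, rfl⟩
  · exact (H.not_both h1 hu).elim
  · refine ⟨t, ht, i, hi, hcx, ?_⟩
    rw [← hcx] at hu
    exact (H.all_iff ht hi).1 hu

theorem unique_cover {x : ℕ} (hx : x < N) {t t' : Tr} {i i' : ℕ} (ht : t ∈ S) (ht' : t' ∈ S)
    (hi : i < 3) (hi' : i' < 3) (hx1 : cmp i t = x) (hx2 : cmp i' t' = x)
    (h : (vx 3 0 t, vx 2 0 t) ∈ M₁) (h' : (vx 3 0 t', vx 2 0 t') ∈ M₁) : t = t' := by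
  have hv : ex 0 x ∈ verts S N := mem_verts.2 (Or.inl ⟨x, hx, Or.inl rfl⟩)
  have h1 := (H.all_iff ht hi).2 h
  have h2 := (H.all_iff ht' hi').2 h'
  rw [hx1] at h1
  rw [hx2] at h2
  have := (H.h2.right _ hv).unique h1 h2
  simp only [vx, Prod.mk.injEq, true_and] at this
  exact this.2

end Good

theorem mem_el {t : Tr} {x : ℕ} : x ∈ el t ↔ ∃ i < 3, cmp i t = x := by
  simp only [el, List.mem_cons, List.not_mem_nil, or_false]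
  constructor
  · rintro (h | h | h)
    · exact ⟨0, by norm_num, by simp [cmp, h]⟩
    · exact ⟨1, by norm_num, by simp [cmp, h]⟩
    · exact ⟨2, by norm_num, by simp [cmp, h]⟩
  · rintro ⟨i, hi, h⟩
    interval_cases i
    · exact Or.inl (by simpa [cmp] using h.symm)
    · exact Or.inr (Or.inl (by simpa [cmp] using h.symm))
    · exact Or.inr (Or.inr (by simpa [cmp] using h.symm))

theorem Good.exact (H : Good S N M₁ M₂) :
    ∃ C : Finset Tr, (∀ t ∈ C, t ∈ S) ∧ ∀ x < N, ∃! t, t ∈ C ∧ x ∈ el t := by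
  classical
  refine ⟨S.toFinset.filter (fun t => (vx 3 0 t, vx 2 0 t) ∈ M₁), ?_, ?_⟩
  · intro t ht
    rw [Finset.mem_filter, List.mem_toFinset] at ht
    exact ht.1
  · intro x hx
    obtain ⟨t, ht, i, hi, hc, hm⟩ := H.cover hx
    refine ⟨t, ⟨?_, mem_el.2 ⟨i, hi, hc⟩⟩, ?_⟩
    · rw [Finset.mem_filter, List.mem_toFinset]
      exact ⟨ht, hm⟩
    · rintro t' ⟨ht', hx'⟩
      rw [Finset.mem_filter, List.mem_toFinset] at ht'
      obtain ⟨i', hi', hc'⟩ := mem_el.1 hx'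
      exact H.unique_cover hx ht'.1 ht hi' hi hc' hc ht'.2 hm

end

end Pool.Agent.W2helper56.CM
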