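import Pool.Agent.NPC.Dec

/-!
# Two disjoint perfect matchings, the first of one colour: definitions
-/

set_option autoImplicit false

namespace Pool.Agent.W2helper56.CM

open Pool.Agent.NPC

/-- A 2-edge-coloured bipartite graph: the list of the vertices of `U`, the list of the vertices of
`V`, and the list of the edges `(u, v)` with their colours (`true` is the colour 1, `false` is the
colour 2). -/
abbrev Inst (α β : Type) : Type := List α × List β × List ((α × β) × Bool)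

/-- Correct instances: no vertex and no edge is listed twice (so every edge has one colour), and
the ends of the edges are vertices. -/
structure IsInst {α β : Type} (I : Inst α β) : Prop where
  nodupU : I.1.Nodup
  nodupV : I.2.1.Nodup
  nodupE : (I.2.2.map Prod.fst).Nodup
  mem : ∀ e ∈ I.2.2, e.1.1 ∈ I.1 ∧ e.1.2 ∈ I.2.1

/-- `M` is a perfect matching: a set of edges which covers every vertex exactly once. -/
structure IsPM {α β : Type} (I : Inst α β) (M : Set (α × β)) : Prop where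
  edge : ∀ e ∈ M, ∃ c, (e, c) ∈ I.2.2
  left : ∀ u ∈ I.1, ∃! v, (u, v) ∈ M
  right : ∀ v ∈ I.2.1, ∃! u, (u, v) ∈ M

/-- There are edge-disjoint perfect matchings `M₁` and `M₂` such that all edges of `M₁` have the
colour 1. -/
def Col2PM {α β : Type} (I : Inst α β) : Prop :=
  IsInst I ∧ ∃ M₁ M₂ : Set (α × β), IsPM I M₁ ∧ IsPM I M₂ ∧ Disjoint M₁ M₂ ∧
    ∀ e ∈ M₁, (e, true) ∈ I.2.2

/-! ### Renaming the vertices -/

/-- Renaming of the vertices. -/
def rn {α β α' β' : Type} (f : α → α') (g : β → β') (I : Inst α β) : Inst α' β' :=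
  (I.1.map f, I.2.1.map g, I.2.2.map fun e => ((f e.1.1, g e.1.2), e.2))

section

variable {α β α' β' : Type} {f : α → α'} {g : β → β'} (hf : Function.Injective f)
  (hg : Function.Injective g)

include hf hg

theorem mem_rn_edge (I : Inst α β) (u : α) (v : β) (c : Bool) :
    (((f u, g v), c) ∈ (rn f g I).2.2) ↔ ((u, v), c) ∈ I.2.2 := by
  simp only [rn, List.mem_map, Prod.mk.injEq]
  constructor
  · rintro ⟨⟨⟨u', v'⟩, c'⟩, h, ⟨h1, h2⟩, h3⟩
    rw [← hf h1, ← hg h2, ← h3]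
    exact h
  · intro h
    exact ⟨_, h, ⟨rfl, rfl⟩, rfl⟩

theorem isInst_rn (I : Inst α β) : IsInst (rn f g I) ↔ IsInst I := by
  have hinj : Function.Injective (fun e : α × β => (f e.1, g e.2)) := by
    rintro ⟨a, b⟩ ⟨c, d⟩ h
    simp only [Prod.mk.injEq] at h
    rw [hf h.1, hg h.2]
  have hE : (rn f g I).2.2.map Prod.fst = (I.2.2.map Prod.fst).map (fun e => (f e.1, g e.2)) := by
    simp [rn, Function.comp_def]
  constructor
  · rintro ⟨h1, h2, h3, h4⟩
    refine ⟨(List.nodup_map_iff hf).1 h1, (List.nodup_map_iff hg).1 h2, ?_, ?_⟩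
    · rw [hE] at h3
      exact (List.nodup_map_iff hinj).1 h3
    · rintro ⟨⟨u, v⟩, c⟩ he
      have := h4 _ ((mem_rn_edge hf hg I u v c).2 he)
      simp only [rn, List.mem_map] at this
      obtain ⟨⟨u', hu, e1⟩, ⟨v', hv, e2⟩⟩ := this
      rw [← hf e1, ← hg e2]
      exact ⟨hu, hv⟩
  · rintro ⟨h1, h2, h3, h4⟩
    refine ⟨(List.nodup_map_iff hf).2 h1, (List.nodup_map_iff hg).2 h2, ?_, ?_⟩
    · rw [hE]
      exact (List.nodup_map_iff hinj).2 h3
    · intro e he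
      simp only [rn, List.mem_map] at he ⊢
      obtain ⟨e', he', rfl⟩ := he
      exact ⟨⟨_, (h4 _ he').1, rfl⟩, ⟨_, (h4 _ he').2, rfl⟩⟩

theorem isPM_rn_image (I : Inst α β) {M : Set (α × β)} (hM : IsPM I M) :
    IsPM (rn f g I) ((fun e : α × β => (f e.1, g e.2)) '' M) := by
  refine ⟨?_, ?_, ?_⟩
  · rintro _ ⟨⟨u, v⟩, h, rfl⟩
    obtain ⟨c, hc⟩ := hM.edge _ h
    exact ⟨c, (mem_rn_edge hf hg I u v c).2 hc⟩
  · intro u' hu'
    simp only [rn, List.mem_map] at hu'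
    obtain ⟨u, hu, rfl⟩ := hu'
    obtain ⟨v, hv, huniq⟩ := hM.left u hu
    refine ⟨g v, ⟨(u, v), hv, rfl⟩, ?_⟩
    rintro w ⟨⟨a, b⟩, hab, e⟩
    simp only [Prod.mk.injEq] at e
    obtain ⟨e1, rfl⟩ := e
    obtain rfl := hf e1
    rw [huniq b hab]
  · intro v' hv'
    simp only [rn, List.mem_map] at hv'
    obtain ⟨v, hv, rfl⟩ := hv'
    obtain ⟨u, hu, huniq⟩ := hM.right v hv
    refine ⟨f u, ⟨(u, v), hu, rfl⟩, ?_⟩
    rintro w ⟨⟨a, b⟩, hab, e⟩
    simp only [Prod.mk.injEq] at e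
    obtain ⟨rfl, e1⟩ := e
    obtain rfl := hg e1
    rw [huniq a hab]

theorem isPM_rn_preimage (I : Inst α β) {M : Set (α' × β')} (hM : IsPM (rn f g I) M) :
    IsPM I ((fun e : α × β => (f e.1, g e.2)) ⁻¹' M) := by
  refine ⟨?_, ?_, ?_⟩
  · rintro ⟨u, v⟩ h
    obtain ⟨c, hc⟩ := hM.edge _ h
    exact ⟨c, (mem_rn_edge hf hg I u v c).1 hc⟩
  · intro u hu
    obtain ⟨v', hv', huniq⟩ := hM.left (f u) (by simp only [rn, List.mem_map]; exact ⟨u, hu, rfl⟩)
    obtain ⟨c, hc⟩ := hM.edge _ hv'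
    simp only [rn, List.mem_map, Prod.mk.injEq] at hc
    obtain ⟨⟨⟨a, b⟩, c'⟩, -, ⟨-, rfl⟩, -⟩ := hc
    exact ⟨b, hv', fun w hw => hg (huniq _ hw)⟩
  · intro v hv
    obtain ⟨u', hu', huniq⟩ := hM.right (g v) (by simp only [rn, List.mem_map]; exact ⟨v, hv, rfl⟩)
    obtain ⟨c, hc⟩ := hM.edge _ hu'
    simp only [rn, List.mem_map, Prod.mk.injEq] at hc
    obtain ⟨⟨⟨a, b⟩, c'⟩, -, ⟨rfl, -⟩, -⟩ := hc
    exact ⟨a, hu', fun w hw => hf (huniq _ hw)⟩

theorem col2PM_rn (I : Inst α β) : Col2PM (rn f g I) ↔ Col2PM I := by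
  constructor
  · rintro ⟨hI, M₁, M₂, h1, h2, h3, h4⟩
    refine ⟨(isInst_rn hf hg I).1 hI, _, _, isPM_rn_preimage hf hg I h1,
      isPM_rn_preimage hf hg I h2, Disjoint.preimage _ h3, ?_⟩
    rintro ⟨u, v⟩ he
    exact (mem_rn_edge hf hg I u v true).1 (h4 _ he)
  · rintro ⟨hI, M₁, M₂, h1, h2, h3, h4⟩
    refine ⟨(isInst_rn hf hg I).2 hI, _, _, isPM_rn_image hf hg I h1,
      isPM_rn_image hf hg I h2, ?_, ?_⟩
    · refine (Set.disjoint_image_iff ?_).2 h3
      rintro ⟨a, b⟩ ⟨c, d⟩ h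
      simp only [Prod.mk.injEq] at h
      rw [hf h.1, hg h.2]
    · rintro _ ⟨⟨u, v⟩, h, rfl⟩
      exact (mem_rn_edge hf hg I u v true).2 (h4 _ h)

end

end Pool.Agent.W2helper56.CM
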