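import Pool.Agent.W2helper56.CM.Forth
import Pool.Agent.W2helper56.Util

/-!
# COL-2PM is NP-complete
-/

set_option autoImplicit false

namespace Pool.Agent.W2helper56.CM

open Pool.Agent.NPC Pool.Agent.NPC.H632 Pool.Agent.H622R2 Pool.Agent.W2helper56

/-! ### Hardness -/

/-- the names of the vertices as natural numbers -/
def nm (w : W) : ℕ := Nat.pair w.1 (Nat.pair w.2.1 (Nat.pair w.2.2.1 (Nat.pair w.2.2.2.1 w.2.2.2.2)))

theorem nm_injective : Function.Injective nm := by
  rintro ⟨a, b, c, d, e⟩ ⟨a', b', c', d', e'⟩ h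
  simp only [nm, Nat.pair_eq_pair] at h
  obtain ⟨rfl, rfl, rfl, rfl, rfl⟩ := h
  rfl

theorem poly_nm {α : Type} [TEnc α] {w : α → W} (hw : NPC.Poly w) : NPC.Poly (fun a => nm (w a)) := by
  unfold nm
  exact poly_natPair (by fun_prop) (poly_natPair (by fun_prop) (poly_natPair (by fun_prop)
    (poly_natPair (by fun_prop) (by fun_prop))))

/-- the reduction -/
def red (I : List Tr × ℕ) : Inst ℕ ℕ :=
  rn nm nm (gr (ddup I.1) (min (3 * I.2) (3 * I.1.length)))

theorem red_correct {I : List Tr × ℕ} (hI : X3CPr I) : X3C I ↔ Col2PM (red I) := by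
  have hN : min (3 * I.2) (3 * I.1.length) = 3 * I.2 := by
    have := hI.2.2
    omega
  rw [X3C_iff_finset hI, red, col2PM_rn nm_injective nm_injective, hN, ← red_iff (ddup_nodup _)]
  · refine exists_congr fun C => and_congr_left fun _ => ?_
    exact forall₂_congr fun t _ => (mem_ddup I.1 t).symm
  · intro t ht
    exact hI.1 t ((mem_ddup I.1 t).1 ht)

theorem poly_cmp {α : Type} [TEnc α] {i : α → ℕ} {t : α → Tr} (hi : NPC.Poly i) (ht : NPC.Poly t) :
    NPC.Poly (fun a => cmp (i a) (t a)) := by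
  unfold cmp
  fun_prop

theorem poly_nx {α : Type} [TEnc α] {i : α → ℕ} (hi : NPC.Poly i) :
    NPC.Poly (fun a => nx (i a)) := by
  unfold nx
  fun_prop

attribute [local fun_prop] poly_cmp poly_nx poly_nm

theorem poly_red : NPC.Poly red := by
  have hS : NPC.Poly (fun I : List Tr × ℕ => ddup I.1) := ddup_poly (Poly.fst Poly.id)
  have hN : NPC.Poly (fun I : List Tr × ℕ => List.range (min (3 * I.2) (3 * I.1.length))) := by
    refine UPoly.range (UPoly.of_le (by fun_prop)
      (UPoly.mul (UPoly.const 3) (UPoly.length (Poly.fst Poly.id))) fun I => min_le_right _ _)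
  have hV : NPC.Poly (fun I : List Tr × ℕ =>
      verts (ddup I.1) (min (3 * I.2) (3 * I.1.length))) := by
    unfold verts ex vx
    refine Poly.append (Poly.flatMap hN ?_) (Poly.flatMap hS ?_)
    · fun_prop
    · fun_prop
  have hE : NPC.Poly (fun I : List Tr × ℕ =>
      edges (ddup I.1) (min (3 * I.2) (3 * I.1.length))) := by
    unfold edges elE gE ex vx
    refine Poly.append (Poly.flatMap hN ?_) (Poly.flatMap hS ?_)
    · fun_prop
    · fun_prop
  unfold red rn gr
  refine NPC.Poly.pair (NPC.Poly.map (F := fun _ w => nm w) hV (by fun_prop))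
    (NPC.Poly.pair (NPC.Poly.map (F := fun _ w => nm w) hV (by fun_prop))
    (NPC.Poly.map (F := fun _ (e : (W × W) × Bool) => ((nm e.1.1, nm e.1.2), e.2)) hE (by fun_prop)))

theorem hardI_col2PM : HardI (Col2PM : Inst ℕ ℕ → Prop) :=
  (hardPr_X3C.trans (Pr' := fun _ => True) poly_red (fun _ _ => trivial)
    fun _ h => red_correct h).toHardI

/-! ### Membership in NP -/

theorem pp_isInst : PP (fun I : Inst ℕ ℕ => IsInst I) := by
  refine PP.congr (p := fun I : Inst ℕ ℕ => I.1.Nodup ∧ I.2.1.Nodup ∧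
    (I.2.2.map Prod.fst).Nodup ∧ ∀ e ∈ I.2.2, e.1.1 ∈ I.1 ∧ e.1.2 ∈ I.2.1) ?_ ?_
  · refine PP.and (pp_nodup (by fun_prop)) (PP.and (pp_nodup (by fun_prop))
      (PP.and (pp_nodup (by fun_prop)) (PP.ball (by fun_prop) ?_)))
    exact PP.and (PP.mem (by fun_prop) (by fun_prop)) (PP.mem (by fun_prop) (by fun_prop))
  · intro I
    exact ⟨fun h => ⟨h.1, h.2.1, h.2.2.1, h.2.2.2⟩, fun h => ⟨h.1, h.2, h.3, h.4⟩⟩

/-- a list of edges is a perfect matching -/
def PMList (I : Inst ℕ ℕ) (L : List (ℕ × ℕ)) : Prop :=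
  (∀ e ∈ L, (e, true) ∈ I.2.2 ∨ (e, false) ∈ I.2.2) ∧
  (∀ u ∈ I.1, (∃ e ∈ L, e.1 = u) ∧ ∀ e ∈ L, ∀ e' ∈ L, e.1 ≠ u ∨ e'.1 ≠ u ∨ e.2 = e'.2) ∧
  (∀ v ∈ I.2.1, (∃ e ∈ L, e.2 = v) ∧ ∀ e ∈ L, ∀ e' ∈ L, e.2 ≠ v ∨ e'.2 ≠ v ∨ e.1 = e'.1)

theorem pmList_iff (I : Inst ℕ ℕ) (L : List (ℕ × ℕ)) : PMList I L ↔ IsPM I {e | e ∈ L} := by
  constructor
  · rintro ⟨h1, h2, h3⟩
    refine ⟨?_, ?_, ?_⟩
    · intro e he
      rcases h1 e he with h | h
      · exact ⟨_, h⟩
      · exact ⟨_, h⟩
    · intro u hu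
      obtain ⟨⟨⟨u', v⟩, he, rfl⟩, h4⟩ := h2 u hu
      refine ⟨v, he, fun w hw => ?_⟩
      rcases h4 _ hw _ he with h | h | h
      · exact absurd rfl h
      · exact absurd rfl h
      · exact h
    · intro v hv
      obtain ⟨⟨⟨u, v'⟩, he, rfl⟩, h4⟩ := h3 v hv
      refine ⟨u, he, fun w hw => ?_⟩
      rcases h4 _ hw _ he with h | h | h
      · exact absurd rfl h
      · exact absurd rfl h
      · exact h
  · rintro ⟨h1, h2, h3⟩
    refine ⟨?_, ?_, ?_⟩
    · intro e he
      obtain ⟨c, hc⟩ := h1 e he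
      cases c
      · exact Or.inr hc
      · exact Or.inl hc
    · intro u hu
      obtain ⟨v, hv, huniq⟩ := h2 u hu
      refine ⟨⟨(u, v), hv, rfl⟩, ?_⟩
      rintro ⟨a, b⟩ he ⟨c, d⟩ he'
      by_cases h4 : a = u
      · by_cases h5 : c = u
        · subst h4
          subst h5
          exact Or.inr (Or.inr ((huniq b he).trans (huniq d he').symm))
        · exact Or.inr (Or.inl h5)
      · exact Or.inl h4
    · intro v hv
      obtain ⟨u, hu, huniq⟩ := h3 v hv
      refine ⟨⟨(u, v), hu, rfl⟩, ?_⟩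
      rintro ⟨a, b⟩ he ⟨c, d⟩ he'
      by_cases h4 : b = v
      · by_cases h5 : d = v
        · subst h4
          subst h5
          exact Or.inr (Or.inr ((huniq a he).trans (huniq c he').symm))
        · exact Or.inr (Or.inl h5)
      · exact Or.inl h4

theorem pp_pmList {α : Type} [TEnc α] {I : α → Inst ℕ ℕ} {L : α → List (ℕ × ℕ)} (hI : NPC.Poly I)
    (hL : NPC.Poly L) : PP (fun a => PMList (I a) (L a)) := by
  unfold PMList
  refine PP.and (PP.ball hL ?_) (PP.and (PP.ball (Poly.fst hI) ?_)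
    (PP.ball (Poly.fst (Poly.snd hI)) ?_))
  · exact PP.or (PP.mem (by fun_prop) (by fun_prop)) (PP.mem (by fun_prop) (by fun_prop))
  · refine PP.and (PP.bex (l := fun x : α × ℕ => L x.1) (by fun_prop)
      (PP.eq (by fun_prop) (by fun_prop))) ?_
    refine PP.ball (l := fun x : α × ℕ => L x.1) (by fun_prop) ?_
    refine PP.ball (l := fun x : (α × ℕ) × (ℕ × ℕ) => L x.1.1) (by fun_prop) ?_
    exact PP.or (PP.ne (by fun_prop) (by fun_prop)) (PP.or (PP.ne (by fun_prop) (by fun_prop))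
      (PP.eq (by fun_prop) (by fun_prop)))
  · refine PP.and (PP.bex (l := fun x : α × ℕ => L x.1) (by fun_prop)
      (PP.eq (by fun_prop) (by fun_prop))) ?_
    refine PP.ball (l := fun x : α × ℕ => L x.1) (by fun_prop) ?_
    refine PP.ball (l := fun x : (α × ℕ) × (ℕ × ℕ) => L x.1.1) (by fun_prop) ?_
    exact PP.or (PP.ne (by fun_prop) (by fun_prop)) (PP.or (PP.ne (by fun_prop) (by fun_prop))
      (PP.eq (by fun_prop) (by fun_prop)))

theorem sz_map_fst (E : List ((ℕ × ℕ) × Bool)) : sz (E.map Prod.fst) ≤ sz E := by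
  induction E with
  | nil => simp
  | cons e E ih =>
    obtain ⟨⟨a, b⟩, c⟩ := e
    simp
    omega

theorem inNPP_col2PM : InNPP (Col2PM : Inst ℕ ℕ → Prop) := by
  classical
  refine inNPP_of_pp (β := List (ℕ × ℕ) × List (ℕ × ℕ))
    (R := fun I w => IsInst I ∧ PMList I w.1 ∧ PMList I w.2 ∧ (∀ e ∈ w.1, e ∉ w.2) ∧
      ∀ e ∈ w.1, (e, true) ∈ I.2.2) ?_ (Polynomial.C 2 * Polynomial.X + Polynomial.C 1) ?_
  · refine PP.and (pp_isInst.comp (Poly.fst Poly.id)) (PP.and
      (pp_pmList (by fun_prop) (by fun_prop)) (PP.and (pp_pmList (by fun_prop) (by fun_prop))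
      (PP.and (PP.ball (by fun_prop) ?_) (PP.ball (by fun_prop) ?_))))
    · exact PP.not (PP.mem (by fun_prop) (by fun_prop))
    · exact PP.mem (by fun_prop) (by fun_prop)
  · intro I
    constructor
    · rintro ⟨hI, M₁, M₂, h1, h2, h3, h4⟩
      have key : ∀ M : Set (ℕ × ℕ), IsPM I M →
          {e | e ∈ (I.2.2.map Prod.fst).filter (fun e => decide (e ∈ M))} = M := by
        intro M hM
        ext e
        simp only [List.mem_filter, decide_eq_true_eq, Set.mem_ofPred_eq, List.mem_map]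
        constructor
        · exact fun h => h.2
        · intro h
          obtain ⟨c, hc⟩ := hM.edge e h
          exact ⟨⟨_, hc, rfl⟩, h⟩
      have hsz : ∀ M : Set (ℕ × ℕ),
          sz ((I.2.2.map Prod.fst).filter (fun e => decide (e ∈ M))) ≤ sz I := by
        intro M
        refine (sz_sublist List.filter_sublist).trans ((sz_map_fst _).trans ?_)
        obtain ⟨U, V, E⟩ := I
        simp only [sz_pair]
        omega
      refine ⟨((I.2.2.map Prod.fst).filter (fun e => decide (e ∈ M₁)),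
        (I.2.2.map Prod.fst).filter (fun e => decide (e ∈ M₂))), ?_, hI, ?_, ?_, ?_, ?_⟩
      · have e1 := hsz M₁
        have e2 := hsz M₂
        simp only [sz_pair, Polynomial.eval_add, Polynomial.eval_mul, Polynomial.eval_C,
          Polynomial.eval_X]
        omega
      · rw [pmList_iff, key _ h1]
        exact h1
      · rw [pmList_iff, key _ h2]
        exact h2
      · intro e he he'
        simp only [List.mem_filter, decide_eq_true_eq] at he he'
        exact Set.disjoint_left.1 h3 he.2 he'.2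
      · intro e he
        simp only [List.mem_filter, decide_eq_true_eq] at he
        exact h4 e he.2
    · rintro ⟨w, -, hI, h1, h2, h3, h4⟩
      refine ⟨hI, {e | e ∈ w.1}, {e | e ∈ w.2}, (pmList_iff _ _).1 h1, (pmList_iff _ _).1 h2, ?_,
        h4⟩
      rw [Set.disjoint_left]
      exact fun e he he' => h3 e he he'

end Pool.Agent.W2helper56.CM
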