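import Pool.Agent.W2helper56.CM.Back

/-!
# From exact covers to matchings
-/

set_option autoImplicit false

namespace Pool.Agent.W2helper56.CM

open Pool.Agent.NPC Pool.Agent.NPC.H632 Pool.Agent.H622R2

section

variable {S : List Tr} {N : ℕ}

/-! ### The instance is correct -/

theorem nodup_verts (hS : S.Nodup) : (verts S N).Nodup := by
  unfold verts
  rw [List.nodup_append]
  refine ⟨?_, ?_, ?_⟩
  · refine nodup_flatMap_of (fun w : W => w.2.1) List.nodup_range ?_ ?_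
    · intro x _
      simp [ex]
    · intro x _ w hw
      simp only [List.mem_cons, List.not_mem_nil, or_false] at hw
      rcases hw with rfl | rfl <;> rfl
  · refine nodup_flatMap_of (fun w : W => w.2.2) hS ?_ ?_
    · intro t _
      refine nodup_flatMap_of (fun w : W => w.2.1) (by simp) ?_ ?_
      · intro i _
        simp [vx]
      · intro i _ w hw
        simp only [List.mem_cons, List.not_mem_nil, or_false] at hw
        rcases hw with rfl | rfl | rfl | rfl <;> rfl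
    · intro t _ w hw
      simp only [List.mem_cons, List.not_mem_nil, or_false, List.mem_flatMap] at hw
      obtain ⟨i, -, rfl | rfl | rfl | rfl⟩ := hw <;> rfl
  · intro w hw w' hw' h
    subst h
    simp only [List.mem_cons, List.not_mem_nil, or_false, List.mem_flatMap] at hw hw'
    obtain ⟨x, -, h1⟩ := hw
    obtain ⟨t, -, i, -, h2⟩ := hw'
    rcases h1 with rfl | rfl <;> simp [ex, vx] at h2

theorem nodup_edges (hS : S.Nodup) : ((edges S N).map Prod.fst).Nodup := by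
  unfold edges
  rw [List.map_append, List.nodup_append, List.map_flatMap, List.map_flatMap]
  refine ⟨?_, ?_, ?_⟩
  · refine nodup_flatMap_of (fun e : W × W => e.1.2.1) List.nodup_range ?_ ?_
    · intro x _
      simp [elE, ex]
    · intro x _ w hw
      simp only [elE, List.map_cons, List.map_nil, List.mem_cons, List.not_mem_nil, or_false] at hw
      rcases hw with rfl | rfl | rfl <;> rfl
  · refine nodup_flatMap_of (fun e : W × W => if e.1.1 = 0 then e.2.2.2 else e.1.2.2) hS ?_ ?_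
    · intro t _
      rw [List.map_flatMap]
      refine nodup_flatMap_of (fun e : W × W => if e.2.1 = 0 then e.1.2.1 else e.2.2.1)
        (by simp) ?_ ?_
      · intro i _
        simp [gE, vx, ex]
      · intro i _ w hw
        simp only [gE, List.map_cons, List.map_nil, List.mem_cons, List.not_mem_nil,
          or_false] at hw
        rcases hw with rfl | rfl | rfl | rfl | rfl | rfl | rfl | rfl | rfl | rfl | rfl <;>
          simp [vx, ex]
    · intro t _ w hw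
      simp only [gE, List.map_cons, List.map_nil, List.mem_cons, List.not_mem_nil, or_false,
        List.mem_flatMap, List.map_flatMap] at hw
      obtain ⟨i, -, hw⟩ := hw
      rcases hw with rfl | rfl | rfl | rfl | rfl | rfl | rfl | rfl | rfl | rfl | rfl <;>
        simp [vx, ex]
  · intro w hw w' hw' h
    subst h
    simp only [elE, gE, List.map_cons, List.map_nil, List.mem_cons, List.not_mem_nil, or_false,
        List.mem_flatMap, List.map_flatMap] at hw hw'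
    obtain ⟨x, -, h1⟩ := hw
    obtain ⟨t, -, i, -, h2⟩ := hw'
    rcases h1 with rfl | rfl | rfl <;> simp [ex, vx] at h2

theorem isInst_gr (hS : S.Nodup) (hN : ∀ t ∈ S, ∀ x ∈ el t, x < N) : IsInst (gr S N) := by
  refine ⟨nodup_verts hS, nodup_verts hS, nodup_edges hS, ?_⟩
  intro e he
  change e.1.1 ∈ verts S N ∧ e.1.2 ∈ verts S N
  rw [gr, mem_edges] at he
  rw [mem_verts, mem_verts]
  rcases he with ⟨x, hx, he⟩ | ⟨t, ht, i, hi, he⟩
  · simp only [elE, List.mem_cons, List.not_mem_nil, or_false] at he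
    rcases he with rfl | rfl | rfl
    · exact ⟨Or.inl ⟨x, hx, Or.inl rfl⟩, Or.inl ⟨x, hx, Or.inr rfl⟩⟩
    · exact ⟨Or.inl ⟨x, hx, Or.inr rfl⟩, Or.inl ⟨x, hx, Or.inr rfl⟩⟩
    · exact ⟨Or.inl ⟨x, hx, Or.inr rfl⟩, Or.inl ⟨x, hx, Or.inl rfl⟩⟩
  · have hc : cmp i t < N := hN t ht _ (mem_el.2 ⟨i, hi, rfl⟩)
    have h2 : ∀ j < 3, (∃ x < N, vx 2 j t = ex 0 x ∨ vx 2 j t = ex 1 x) ∨
      ∃ t' ∈ S, ∃ i < 3, vx 2 j t = vx 2 i t' ∨ vx 2 j t = vx 3 i t' ∨ vx 2 j t = vx 4 i t' ∨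
        vx 2 j t = vx 5 i t' := fun j hj => Or.inr ⟨t, ht, j, hj, Or.inl rfl⟩
    have h3 : ∀ j < 3, (∃ x < N, vx 3 j t = ex 0 x ∨ vx 3 j t = ex 1 x) ∨
      ∃ t' ∈ S, ∃ i < 3, vx 3 j t = vx 2 i t' ∨ vx 3 j t = vx 3 i t' ∨ vx 3 j t = vx 4 i t' ∨
        vx 3 j t = vx 5 i t' := fun j hj => Or.inr ⟨t, ht, j, hj, Or.inr (Or.inl rfl)⟩
    have h4 : ∀ j < 3, (∃ x < N, vx 4 j t = ex 0 x ∨ vx 4 j t = ex 1 x) ∨
      ∃ t' ∈ S, ∃ i < 3, vx 4 j t = vx 2 i t' ∨ vx 4 j t = vx 3 i t' ∨ vx 4 j t = vx 4 i t' ∨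
        vx 4 j t = vx 5 i t' := fun j hj => Or.inr ⟨t, ht, j, hj, Or.inr (Or.inr (Or.inl rfl))⟩
    have h5 : ∀ j < 3, (∃ x < N, vx 5 j t = ex 0 x ∨ vx 5 j t = ex 1 x) ∨
      ∃ t' ∈ S, ∃ i < 3, vx 5 j t = vx 2 i t' ∨ vx 5 j t = vx 3 i t' ∨ vx 5 j t = vx 4 i t' ∨
        vx 5 j t = vx 5 i t' := fun j hj => Or.inr ⟨t, ht, j, hj, Or.inr (Or.inr (Or.inr rfl))⟩
    have h0 : (∃ x < N, ex 0 (cmp i t) = ex 0 x ∨ ex 0 (cmp i t) = ex 1 x) ∨
      ∃ t' ∈ S, ∃ j < 3, ex 0 (cmp i t) = vx 2 j t' ∨ ex 0 (cmp i t) = vx 3 j t' ∨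
        ex 0 (cmp i t) = vx 4 j t' ∨ ex 0 (cmp i t) = vx 5 j t' := Or.inl ⟨_, hc, Or.inl rfl⟩
    simp only [gE, List.mem_cons, List.not_mem_nil, or_false] at he
    rcases he with rfl | rfl | rfl | rfl | rfl | rfl | rfl | rfl | rfl | rfl | rfl
    · exact ⟨h2 i hi, h3 i hi⟩
    · exact ⟨h3 i hi, h3 i hi⟩
    · exact ⟨h3 i hi, h2 i hi⟩
    · exact ⟨h4 i hi, h2 i hi⟩
    · exact ⟨h4 i hi, h4 i hi⟩
    · exact ⟨h2 _ (nx_lt i), h4 i hi⟩
    · exact ⟨h4 i hi, h5 i hi⟩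
    · exact ⟨h5 i hi, h5 i hi⟩
    · exact ⟨h5 i hi, h4 i hi⟩
    · exact ⟨h2 i hi, h0⟩
    · exact ⟨h0, h2 i hi⟩

/-! ### Matchings given by functions -/

theorem isPM_of {α β : Type} (I : Inst α β) (f : α → β) (g : β → α)
    (hf : ∀ u ∈ I.1, f u ∈ I.2.1 ∧ g (f u) = u) (hg : ∀ v ∈ I.2.1, g v ∈ I.1 ∧ f (g v) = v)
    (he : ∀ u ∈ I.1, ∃ c, ((u, f u), c) ∈ I.2.2) :
    IsPM I {e | e.1 ∈ I.1 ∧ e.2 = f e.1} := by
  refine ⟨?_, ?_, ?_⟩
  · rintro ⟨u, v⟩ ⟨h1, h2⟩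
    simp only at h1 h2
    subst h2
    exact he u h1
  · intro u hu
    exact ⟨f u, ⟨hu, rfl⟩, fun v hv => hv.2⟩
  · intro v hv
    refine ⟨g v, ⟨(hg v hv).1, (hg v hv).2.symm⟩, ?_⟩
    rintro u ⟨h1, h2⟩
    simp only at h1 h2
    rw [h2, (hf u h1).2]

open Classical in
/-- the first matching -/
noncomputable def f1 (C : Finset Tr) (w : W) : W :=
  if w.1 = 0 then ex 1 w.2.1 else if w.1 = 1 then ex 0 w.2.1 else
  if w.1 = 2 then (if w.2.2 ∈ C then vx 3 w.2.1 w.2.2 else vx 4 (pr w.2.1) w.2.2) else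
  if w.1 = 3 then (if w.2.2 ∈ C then vx 2 w.2.1 w.2.2 else vx 3 w.2.1 w.2.2) else
  if w.1 = 4 then (if w.2.2 ∈ C then vx 4 w.2.1 w.2.2 else vx 2 w.2.1 w.2.2) else
  vx 5 w.2.1 w.2.2

open Classical in
/-- the inverse of the first matching -/
noncomputable def g1 (C : Finset Tr) (w : W) : W :=
  if w.1 = 0 then ex 1 w.2.1 else if w.1 = 1 then ex 0 w.2.1 else
  if w.1 = 2 then (if w.2.2 ∈ C then vx 3 w.2.1 w.2.2 else vx 4 w.2.1 w.2.2) else
  if w.1 = 3 then (if w.2.2 ∈ C then vx 2 w.2.1 w.2.2 else vx 3 w.2.1 w.2.2) else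
  if w.1 = 4 then (if w.2.2 ∈ C then vx 4 w.2.1 w.2.2 else vx 2 (nx w.2.1) w.2.2) else
  vx 5 w.2.1 w.2.2

open Classical in
/-- the second matching; `T x` and `J x` are the triple that covers `x` and the position of `x` -/
noncomputable def f2 (C : Finset Tr) (T : ℕ → Tr) (J : ℕ → ℕ) (w : W) : W :=
  if w.1 = 0 then vx 2 (J w.2.1) (T w.2.1) else if w.1 = 1 then ex 1 w.2.1 else
  if w.1 = 2 then (if w.2.2 ∈ C then ex 0 (cmp w.2.1 w.2.2) else vx 3 w.2.1 w.2.2) else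
  if w.1 = 3 then (if w.2.2 ∈ C then vx 3 w.2.1 w.2.2 else vx 2 w.2.1 w.2.2) else
  if w.1 = 4 then vx 5 w.2.1 w.2.2 else vx 4 w.2.1 w.2.2

open Classical in
/-- the inverse of the second matching -/
noncomputable def g2 (C : Finset Tr) (T : ℕ → Tr) (J : ℕ → ℕ) (w : W) : W :=
  if w.1 = 0 then vx 2 (J w.2.1) (T w.2.1) else if w.1 = 1 then ex 1 w.2.1 else
  if w.1 = 2 then (if w.2.2 ∈ C then ex 0 (cmp w.2.1 w.2.2) else vx 3 w.2.1 w.2.2) else
  if w.1 = 3 then (if w.2.2 ∈ C then vx 3 w.2.1 w.2.2 else vx 2 w.2.1 w.2.2) else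
  if w.1 = 4 then vx 5 w.2.1 w.2.2 else vx 4 w.2.1 w.2.2

theorem vert_cases {w : W} {p : W → Prop} (h0 : ∀ x < N, p (ex 0 x)) (h1 : ∀ x < N, p (ex 1 x))
    (h2 : ∀ t ∈ S, ∀ i < 3, p (vx 2 i t)) (h3 : ∀ t ∈ S, ∀ i < 3, p (vx 3 i t))
    (h4 : ∀ t ∈ S, ∀ i < 3, p (vx 4 i t)) (h5 : ∀ t ∈ S, ∀ i < 3, p (vx 5 i t))
    (hw : w ∈ verts S N) : p w := by
  rcases mem_verts.1 hw with ⟨x, hx, rfl | rfl⟩ | ⟨t, ht, i, hi, rfl | rfl | rfl | rfl⟩
  · exact h0 x hx
  · exact h1 x hx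
  · exact h2 t ht i hi
  · exact h3 t ht i hi
  · exact h4 t ht i hi
  · exact h5 t ht i hi

theorem mem_v {k i : ℕ} {t : Tr} (ht : t ∈ S) (hi : i < 3) (hk : k = 2 ∨ k = 3 ∨ k = 4 ∨ k = 5) :
    vx k i t ∈ verts S N := by
  refine mem_verts.2 (Or.inr ⟨t, ht, i, hi, ?_⟩)
  rcases hk with rfl | rfl | rfl | rfl <;> simp

theorem mem_e {k x : ℕ} (hx : x < N) (hk : k = 0 ∨ k = 1) : ex k x ∈ verts S N := by
  refine mem_verts.2 (Or.inl ⟨x, hx, ?_⟩)
  rcases hk with rfl | rfl <;> simp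

theorem pm1 (C : Finset Tr) :
    (∀ u ∈ verts S N, f1 C u ∈ verts S N ∧ g1 C (f1 C u) = u) ∧
    (∀ v ∈ verts S N, g1 C v ∈ verts S N ∧ f1 C (g1 C v) = v) ∧
    (∀ u ∈ verts S N, ((u, f1 C u), true) ∈ edges S N) := by
  refine ⟨fun u hu => ?_, fun v hv => ?_, fun u hu => ?_⟩
  · refine vert_cases (p := fun u => f1 C u ∈ verts S N ∧ g1 C (f1 C u) = u) ?_ ?_ ?_ ?_ ?_ ?_ hu
    · intro x hx
      simp [f1, g1, ex, mem_e hx]
      exact mem_e hx (by simp)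
    · intro x hx
      simp [f1, g1, ex, mem_e hx]
      exact mem_e hx (by simp)
    · intro t ht i hi
      by_cases h : t ∈ C
      · simp [f1, g1, vx, h]
        exact mem_v ht hi (by simp)
      · simp [f1, g1, vx, h, nx_pr hi]
        exact mem_v ht (pr_lt i) (by simp)
    · intro t ht i hi
      by_cases h : t ∈ C <;> simp [f1, g1, vx, h] <;> exact mem_v ht hi (by simp)
    · intro t ht i hi
      by_cases h : t ∈ C <;> simp [f1, g1, vx, h] <;> exact mem_v ht hi (by simp)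
    · intro t ht i hi
      simp [f1, g1, vx]
      exact mem_v ht hi (by simp)
  · refine vert_cases (p := fun v => g1 C v ∈ verts S N ∧ f1 C (g1 C v) = v) ?_ ?_ ?_ ?_ ?_ ?_ hv
    · intro x hx
      simp [f1, g1, ex, mem_e hx]
      exact mem_e hx (by simp)
    · intro x hx
      simp [f1, g1, ex, mem_e hx]
      exact mem_e hx (by simp)
    · intro t ht i hi
      by_cases h : t ∈ C <;> simp [f1, g1, vx, h] <;> exact mem_v ht hi (by simp)
    · intro t ht i hi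
      by_cases h : t ∈ C <;> simp [f1, g1, vx, h] <;> exact mem_v ht hi (by simp)
    · intro t ht i hi
      by_cases h : t ∈ C
      · simp [f1, g1, vx, h]
        exact mem_v ht hi (by simp)
      · simp [f1, g1, vx, h, pr_nx hi]
        exact mem_v ht (nx_lt i) (by simp)
    · intro t ht i hi
      simp [f1, g1, vx]
      exact mem_v ht hi (by simp)
  · refine vert_cases (p := fun u => ((u, f1 C u), true) ∈ edges S N) ?_ ?_ ?_ ?_ ?_ ?_ hu
    · intro x hx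
      refine mem_edges.2 (Or.inl ⟨x, hx, ?_⟩)
      simp [f1, elE, ex]
    · intro x hx
      refine mem_edges.2 (Or.inl ⟨x, hx, ?_⟩)
      simp [f1, elE, ex]
    · intro t ht i hi
      by_cases h : t ∈ C
      · refine mem_edges.2 (Or.inr ⟨t, ht, i, hi, ?_⟩)
        simp [f1, gE, vx, ex, h]
      · refine mem_edges.2 (Or.inr ⟨t, ht, pr i, pr_lt i, ?_⟩)
        simp [f1, gE, vx, ex, h, nx_pr hi]
    · intro t ht i hi
      refine mem_edges.2 (Or.inr ⟨t, ht, i, hi, ?_⟩)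
      by_cases h : t ∈ C <;> simp [f1, gE, vx, ex, h]
    · intro t ht i hi
      refine mem_edges.2 (Or.inr ⟨t, ht, i, hi, ?_⟩)
      by_cases h : t ∈ C <;> simp [f1, gE, vx, ex, h]
    · intro t ht i hi
      refine mem_edges.2 (Or.inr ⟨t, ht, i, hi, ?_⟩)
      simp [f1, gE, vx, ex]

theorem pm2 {C : Finset Tr} {T : ℕ → Tr} {J : ℕ → ℕ} (hN : ∀ t ∈ S, ∀ x ∈ el t, x < N)
    (hT : ∀ x < N, T x ∈ S ∧ T x ∈ C ∧ J x < 3 ∧ cmp (J x) (T x) = x)
    (hu : ∀ t ∈ C, ∀ i < 3, T (cmp i t) = t ∧ J (cmp i t) = i) (hC : ∀ t ∈ C, t ∈ S) :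
    (∀ u ∈ verts S N, f2 C T J u ∈ verts S N ∧ g2 C T J (f2 C T J u) = u) ∧
    (∀ v ∈ verts S N, g2 C T J v ∈ verts S N ∧ f2 C T J (g2 C T J v) = v) ∧
    (∀ u ∈ verts S N, ((u, f2 C T J u), false) ∈ edges S N ∨
      ((u, f2 C T J u), true) ∈ edges S N) := by
  refine ⟨fun u hu' => ?_, fun v hv => ?_, fun u hu' => ?_⟩
  · refine vert_cases (p := fun u => f2 C T J u ∈ verts S N ∧ g2 C T J (f2 C T J u) = u)
      ?_ ?_ ?_ ?_ ?_ ?_ hu'
    · intro x hx
      obtain ⟨h1, h2, h3, h4⟩ := hT x hx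
      refine ⟨?_, ?_⟩
      · simp only [f2, ex, if_true]
        exact mem_v h1 h3 (by simp)
      · simp [f2, g2, ex, vx, h2, h4]
    · intro x hx
      refine ⟨?_, by simp [f2, g2, ex]⟩
      simp only [f2, ex]
      exact mem_e hx (by simp)
    · intro t ht i hi
      by_cases h : t ∈ C
      · refine ⟨?_, ?_⟩
        · simp only [f2, vx, h, if_true]
          exact mem_e (hN t ht _ (mem_el.2 ⟨i, hi, rfl⟩)) (by simp)
        · simp [f2, g2, ex, vx, h, (hu t h i hi).1, (hu t h i hi).2]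
      · refine ⟨?_, by simp [f2, g2, vx, h]⟩
        simp only [f2, vx, h, if_false]
        exact mem_v ht hi (by simp)
    · intro t ht i hi
      by_cases h : t ∈ C <;> simp [f2, g2, vx, h] <;> exact mem_v ht hi (by simp)
    · intro t ht i hi
      simp [f2, g2, vx]
      exact mem_v ht hi (by simp)
    · intro t ht i hi
      simp [f2, g2, vx]
      exact mem_v ht hi (by simp)
  · refine vert_cases (p := fun u => g2 C T J u ∈ verts S N ∧ f2 C T J (g2 C T J u) = u)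
      ?_ ?_ ?_ ?_ ?_ ?_ hv
    · intro x hx
      obtain ⟨h1, h2, h3, h4⟩ := hT x hx
      refine ⟨?_, ?_⟩
      · simp only [g2, ex, if_true]
        exact mem_v h1 h3 (by simp)
      · simp [f2, g2, ex, vx, h2, h4]
    · intro x hx
      refine ⟨?_, by simp [f2, g2, ex]⟩
      simp only [g2, ex]
      exact mem_e hx (by simp)
    · intro t ht i hi
      by_cases h : t ∈ C
      · refine ⟨?_, ?_⟩
        · simp only [g2, vx, h, if_true]
          exact mem_e (hN t ht _ (mem_el.2 ⟨i, hi, rfl⟩)) (by simp)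
        · simp [f2, g2, ex, vx, h, (hu t h i hi).1, (hu t h i hi).2]
      · refine ⟨?_, by simp [f2, g2, vx, h]⟩
        simp only [g2, vx, h, if_false]
        exact mem_v ht hi (by simp)
    · intro t ht i hi
      by_cases h : t ∈ C <;> simp [f2, g2, vx, h] <;> exact mem_v ht hi (by simp)
    · intro t ht i hi
      simp [f2, g2, vx]
      exact mem_v ht hi (by simp)
    · intro t ht i hi
      simp [f2, g2, vx]
      exact mem_v ht hi (by simp)
  · refine vert_cases (p := fun u => ((u, f2 C T J u), false) ∈ edges S N ∨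
      ((u, f2 C T J u), true) ∈ edges S N) ?_ ?_ ?_ ?_ ?_ ?_ hu'
    · intro x hx
      obtain ⟨h1, h2, h3, h4⟩ := hT x hx
      refine Or.inl (mem_edges.2 (Or.inr ⟨T x, h1, J x, h3, ?_⟩))
      simp [f2, gE, vx, ex, h4]
    · intro x hx
      refine Or.inl (mem_edges.2 (Or.inl ⟨x, hx, ?_⟩))
      simp [f2, elE, ex]
    · intro t ht i hi
      by_cases h : t ∈ C
      · refine Or.inl (mem_edges.2 (Or.inr ⟨t, ht, i, hi, ?_⟩))
        simp [f2, gE, vx, ex, h]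
      · refine Or.inr (mem_edges.2 (Or.inr ⟨t, ht, i, hi, ?_⟩))
        simp [f2, gE, vx, ex, h]
    · intro t ht i hi
      by_cases h : t ∈ C
      · refine Or.inr (mem_edges.2 (Or.inr ⟨t, ht, i, hi, ?_⟩))
        simp [f2, gE, vx, ex, h]
      · refine Or.inr (mem_edges.2 (Or.inr ⟨t, ht, i, hi, ?_⟩))
        simp [f2, gE, vx, ex, h]
    · intro t ht i hi
      refine Or.inl (mem_edges.2 (Or.inr ⟨t, ht, i, hi, ?_⟩))
      simp [f2, gE, vx, ex]
    · intro t ht i hi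
      refine Or.inl (mem_edges.2 (Or.inr ⟨t, ht, i, hi, ?_⟩))
      simp [f2, gE, vx, ex]

theorem cmp_inj {t : Tr} (h : (el t).Nodup) {i j : ℕ} (hi : i < 3) (hj : j < 3)
    (hij : cmp i t = cmp j t) : i = j := by
  simp only [el, List.nodup_cons, List.mem_cons, List.not_mem_nil, or_false, not_or] at h
  obtain ⟨⟨h1, h2⟩, h3, -⟩ := h
  interval_cases i <;> interval_cases j <;> simp [cmp] at hij ⊢
  · exact h1 hij
  · exact h2 hij
  · exact h1 hij.symm
  · exact h3 hij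
  · exact h2 hij.symm
  · exact h3 hij.symm

theorem forth (hS : S.Nodup) (hN : ∀ t ∈ S, (el t).Nodup ∧ ∀ x ∈ el t, x < N)
    (h : ∃ C : Finset Tr, (∀ t ∈ C, t ∈ S) ∧ ∀ x < N, ∃! t, t ∈ C ∧ x ∈ el t) :
    Col2PM (gr S N) := by
  classical
  obtain ⟨C, hC, hu⟩ := h
  have hex : ∀ x, ∃ t : Tr, ∃ j : ℕ, x < N → t ∈ C ∧ j < 3 ∧ cmp j t = x := by
    intro x
    by_cases hx : x < N
    · obtain ⟨t, ⟨ht, hxt⟩, -⟩ := hu x hx
      obtain ⟨j, hj, hjx⟩ := mem_el.1 hxt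
      exact ⟨t, j, fun _ => ⟨ht, hj, hjx⟩⟩
    · exact ⟨(0, 0, 0), 0, fun h => (hx h).elim⟩
  choose T J hTJ using hex
  obtain ⟨a1, a2, a3⟩ := pm1 (S := S) (N := N) C
  obtain ⟨b1, b2, b3⟩ := pm2 (S := S) (N := N) (C := C) (T := T) (J := J) (fun t ht => (hN t ht).2)
    (fun x hx => ⟨hC _ (hTJ x hx).1, hTJ x hx⟩) (by
      intro t ht i hi
      have hx : cmp i t < N := (hN t (hC t ht)).2 _ (mem_el.2 ⟨i, hi, rfl⟩)
      obtain ⟨h1, h2, h3⟩ := hTJ _ hx
      have h4 : T (cmp i t) = t :=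
        (hu _ hx).unique ⟨h1, mem_el.2 ⟨_, h2, h3⟩⟩ ⟨ht, mem_el.2 ⟨i, hi, rfl⟩⟩
      refine ⟨h4, ?_⟩
      rw [h4] at h3
      exact cmp_inj (hN t (hC t ht)).1 h2 hi h3) hC
  refine ⟨isInst_gr hS (fun t ht => (hN t ht).2), _, _,
    isPM_of (gr S N) (f1 C) (g1 C) a1 a2 (fun u hu => ⟨_, a3 u hu⟩),
    isPM_of (gr S N) (f2 C T J) (g2 C T J) b1 b2 ?_, ?_, ?_⟩
  · intro u hu
    rcases b3 u hu with h | h
    · exact ⟨_, h⟩
    · exact ⟨_, h⟩
  · rw [Set.disjoint_left]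
    rintro ⟨u, v⟩ ⟨h1, h2⟩ ⟨-, h3⟩
    simp only at h1 h2 h3
    rw [h2] at h3
    have key : f1 C u ≠ f2 C T J u := by
      refine vert_cases (p := fun u => f1 C u ≠ f2 C T J u) ?_ ?_ ?_ ?_ ?_ ?_ h1
      · intro x hx
        simp [f1, f2, ex, vx]
      · intro x hx
        simp [f1, f2, ex]
      · intro t ht i hi
        by_cases h : t ∈ C <;> simp [f1, f2, ex, vx, h]
      · intro t ht i hi
        by_cases h : t ∈ C <;> simp [f1, f2, vx, h]
      · intro t ht i hi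
        by_cases h : t ∈ C <;> simp [f1, f2, vx, h]
      · intro t ht i hi
        simp [f1, f2, vx]
    exact key h3
  · rintro ⟨u, v⟩ ⟨h1, h2⟩
    simp only at h1 h2
    rw [h2]
    exact a3 u h1

theorem red_iff (hS : S.Nodup) (hN : ∀ t ∈ S, (el t).Nodup ∧ ∀ x ∈ el t, x < N) :
    (∃ C : Finset Tr, (∀ t ∈ C, t ∈ S) ∧ ∀ x < N, ∃! t, t ∈ C ∧ x ∈ el t) ↔
      Col2PM (gr S N) := by
  refine ⟨forth hS hN, ?_⟩
  rintro ⟨-, M₁, M₂, h1, h2, h3, h4⟩
  exact Good.exact ⟨h1, h2, h3, h4⟩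

end

end Pool.Agent.W2helper56.CM
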