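import Pool.Agent.W2helper56.CM.Defs
import Pool.Agent.H632R2.X3C
import Pool.Agent.H622R2.Base

/-!
# The reduction of exact cover by 3-sets
-/

set_option autoImplicit false

namespace Pool.Agent.W2helper56.CM

open Pool.Agent.NPC Pool.Agent.NPC.H632

/-- Names of vertices: kind, index, triple. -/
abbrev W : Type := ℕ × ℕ × (ℕ × ℕ × ℕ)

abbrev Tr : Type := ℕ × ℕ × ℕ

/-- the next index modulo three -/
def nx (i : ℕ) : ℕ := (i + 1) % 3

/-- the previous index modulo three -/
def pr (i : ℕ) : ℕ := (i + 2) % 3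

/-- the components of a triple -/
def cmp (i : ℕ) (t : Tr) : ℕ := if i = 0 then t.1 else if i = 1 then t.2.1 else t.2.2

/-- the vertices of `U` (and `V`): the first component is the kind -/
def vx (k i : ℕ) (t : Tr) : W := (k, i, t)

/-- the element vertices -/
def ex (k x : ℕ) : W := (k, x, (0, 0, 0))

/-- The edges at the element `x`. -/
def elE (x : ℕ) : List ((W × W) × Bool) :=
  [((ex 0 x, ex 1 x), true), ((ex 1 x, ex 1 x), false), ((ex 1 x, ex 0 x), true)]

/-- The edges of the part `i` of the gadget of the triple `t`. Kinds in `U`: `2 = P`, `3 = q`,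
`4 = z`, `5 = b`; kinds in `V`: `2 = Q`, `3 = p`, `4 = z'`, `5 = a`. -/
def gE (t : Tr) (i : ℕ) : List ((W × W) × Bool) :=
  [((vx 2 i t, vx 3 i t), true), ((vx 3 i t, vx 3 i t), true), ((vx 3 i t, vx 2 i t), true),
   ((vx 4 i t, vx 2 i t), true), ((vx 4 i t, vx 4 i t), true), ((vx 2 (nx i) t, vx 4 i t), true),
   ((vx 4 i t, vx 5 i t), false), ((vx 5 i t, vx 5 i t), true), ((vx 5 i t, vx 4 i t), false),
   ((vx 2 i t, ex 0 (cmp i t)), false), ((ex 0 (cmp i t), vx 2 i t), false)]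

def verts (S : List Tr) (N : ℕ) : List W :=
  (List.range N).flatMap (fun x => [ex 0 x, ex 1 x]) ++
    S.flatMap (fun t => [0, 1, 2].flatMap fun i => [vx 2 i t, vx 3 i t, vx 4 i t, vx 5 i t])

def edges (S : List Tr) (N : ℕ) : List ((W × W) × Bool) :=
  (List.range N).flatMap elE ++ S.flatMap (fun t => [0, 1, 2].flatMap (gE t))

/-- The graph for a list of triples (without repetitions) of elements below `N`. -/
def gr (S : List Tr) (N : ℕ) : Inst W W := (verts S N, verts S N, edges S N)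

section

variable {S : List Tr} {N : ℕ}

theorem mem_verts {w : W} : w ∈ verts S N ↔ (∃ x < N, w = ex 0 x ∨ w = ex 1 x) ∨
    ∃ t ∈ S, ∃ i < 3, w = vx 2 i t ∨ w = vx 3 i t ∨ w = vx 4 i t ∨ w = vx 5 i t := by
  unfold verts
  simp only [List.mem_append, List.mem_flatMap, List.mem_range, List.mem_cons, List.not_mem_nil,
    or_false]
  refine or_congr Iff.rfl ?_
  constructor
  · rintro ⟨t, ht, i, hi, h⟩
    exact ⟨t, ht, i, by omega, h⟩
  · rintro ⟨t, ht, i, hi, h⟩
    exact ⟨t, ht, i, by omega, h⟩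

theorem mem_edges {e : (W × W) × Bool} : e ∈ edges S N ↔ (∃ x < N, e ∈ elE x) ∨
    ∃ t ∈ S, ∃ i < 3, e ∈ gE t i := by
  unfold edges
  simp only [List.mem_append, List.mem_flatMap, List.mem_range, List.mem_cons, List.not_mem_nil,
    or_false]
  refine or_congr Iff.rfl ?_
  constructor
  · rintro ⟨t, ht, i, hi, h⟩
    exact ⟨t, ht, i, by omega, h⟩
  · rintro ⟨t, ht, i, hi, h⟩
    exact ⟨t, ht, i, by omega, h⟩

theorem nx_lt (i : ℕ) : nx i < 3 := Nat.mod_lt _ (by norm_num)
theorem pr_lt (i : ℕ) : pr i < 3 := Nat.mod_lt _ (by norm_num)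
theorem nx_pr {i : ℕ} (h : i < 3) : nx (pr i) = i := by unfold nx pr; omega
theorem pr_nx {i : ℕ} (h : i < 3) : pr (nx i) = i := by unfold nx pr; omega
theorem nx_inj {i j : ℕ} (hi : i < 3) (hj : j < 3) (h : nx i = nx j) : i = j := by
  rw [← pr_nx hi, ← pr_nx hj, h]

/-! ### Neighbourhoods -/

theorem adj_b {i : ℕ} {t : Tr} {v : W} {c : Bool} (h : ((vx 5 i t, v), c) ∈ edges S N) :
    (v = vx 5 i t) ∨ (v = vx 4 i t ∧ c = false) := by
  rw [mem_edges] at h
  simp only [elE, gE, vx, ex, List.mem_cons, List.not_mem_nil, Prod.mk.injEq] at h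
  rcases h with ⟨x, hx, h⟩ | ⟨t', ht, j, hj, h⟩
  · simp at h
  · simp only [vx] 
    rcases h with h | h | h | h | h | h | h | h | h | h | h | h <;> simp_all

theorem adj_q {i : ℕ} {t : Tr} {v : W} {c : Bool} (h : ((vx 3 i t, v), c) ∈ edges S N) :
    v = vx 3 i t ∨ v = vx 2 i t := by
  rw [mem_edges] at h
  simp only [elE, gE, vx, ex, List.mem_cons, List.not_mem_nil, Prod.mk.injEq] at h
  rcases h with ⟨x, hx, h⟩ | ⟨t', ht, j, hj, h⟩
  · simp at h
  · simp only [vx] 
    rcases h with h | h | h | h | h | h | h | h | h | h | h | h <;> simp_all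

theorem adj_z {i : ℕ} {t : Tr} {v : W} {c : Bool} (h : ((vx 4 i t, v), c) ∈ edges S N) :
    v = vx 2 i t ∨ v = vx 4 i t ∨ (v = vx 5 i t ∧ c = false) := by
  rw [mem_edges] at h
  simp only [elE, gE, vx, ex, List.mem_cons, List.not_mem_nil, Prod.mk.injEq] at h
  rcases h with ⟨x, hx, h⟩ | ⟨t', ht, j, hj, h⟩
  · simp at h
  · simp only [vx] 
    rcases h with h | h | h | h | h | h | h | h | h | h | h | h <;> simp_all

theorem adj_P {i : ℕ} {t : Tr} {v : W} {c : Bool} (h : ((vx 2 i t, v), c) ∈ edges S N) :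
    v = vx 3 i t ∨ (∃ j < 3, nx j = i ∧ v = vx 4 j t) ∨ (v = ex 0 (cmp i t) ∧ c = false) := by
  rw [mem_edges] at h
  simp only [elE, gE, vx, ex, List.mem_cons, List.not_mem_nil, Prod.mk.injEq] at h
  rcases h with ⟨x, hx, h⟩ | ⟨t', ht, j, hj, h⟩
  · simp at h
  · simp only [vx, ex] 
    rcases h with h | h | h | h | h | h | h | h | h | h | h | h <;> simp_all

theorem adj_eb {x : ℕ} {v : W} {c : Bool} (h : ((ex 1 x, v), c) ∈ edges S N) :
    v = ex 0 x ∨ (v = ex 1 x ∧ c = false) := by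
  rw [mem_edges] at h
  simp only [elE, gE, vx, ex, List.mem_cons, List.not_mem_nil, Prod.mk.injEq] at h
  rcases h with ⟨x, hx, h⟩ | ⟨t', ht, j, hj, h⟩
  · simp only [ex]
    rcases h with h | h | h | h <;> simp_all
  · rcases h with h | h | h | h | h | h | h | h | h | h | h | h <;> simp_all

theorem adj_a' {i : ℕ} {t : Tr} {u : W} {c : Bool} (h : ((u, vx 5 i t), c) ∈ edges S N) :
    u = vx 5 i t ∨ (u = vx 4 i t ∧ c = false) := by
  rw [mem_edges] at h
  simp only [elE, gE, vx, ex, List.mem_cons, List.not_mem_nil, Prod.mk.injEq] at h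
  rcases h with ⟨x, hx, h⟩ | ⟨t', ht, j, hj, h⟩
  · simp at h
  · simp only [vx] 
    rcases h with h | h | h | h | h | h | h | h | h | h | h | h <;> simp_all

theorem adj_p' {i : ℕ} {t : Tr} {u : W} {c : Bool} (h : ((u, vx 3 i t), c) ∈ edges S N) :
    u = vx 2 i t ∨ u = vx 3 i t := by
  rw [mem_edges] at h
  simp only [elE, gE, vx, ex, List.mem_cons, List.not_mem_nil, Prod.mk.injEq] at h
  rcases h with ⟨x, hx, h⟩ | ⟨t', ht, j, hj, h⟩
  · simp at h
  · simp only [vx] 
    rcases h with h | h | h | h | h | h | h | h | h | h | h | h <;> simp_all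

theorem adj_ev' {x : ℕ} {u : W} {c : Bool} (h : ((u, ex 0 x), c) ∈ edges S N) :
    u = ex 1 x ∨ ∃ t ∈ S, ∃ i < 3, cmp i t = x ∧ u = vx 2 i t := by
  rw [mem_edges] at h
  simp only [elE, gE, vx, ex, List.mem_cons, List.not_mem_nil, Prod.mk.injEq] at h
  rcases h with ⟨x, hx, h⟩ | ⟨t', ht, j, hj, h⟩
  · simp only [ex]
    rcases h with h | h | h | h <;> simp_all
  · simp only [ex, vx]
    rcases h with h | h | h | h | h | h | h | h | h | h | h | h
    case inr.inr.inr.inr.inr.inr.inr.inr.inr.inl =>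
      right
      refine ⟨t', ht, j, hj, ?_, ?_⟩
      · simp_all
      · simp_all
    all_goals simp_all

end

end Pool.Agent.W2helper56.CM
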